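import Pool.Agent.H12.CubicElim

namespace Pool.Agent.H12.Cubic

theorem inert_two : Inert 2 := by
  intro r h
  have h1 : ∀ a : ZMod 2, a ^ 3 - a - 1 ≠ 0 := by decide
  apply h1 r
  have := (ZMod.intCast_zmod_eq_zero_iff_dvd (r ^ 3 - r - 1) 2).2 (by exact_mod_cast h)
  push_cast at this
  exact this

theorem inert_three : Inert 3 := by
  intro r h
  have h1 : ∀ a : ZMod 3, a ^ 3 - a - 1 ≠ 0 := by decide
  apply h1 r
  have := (ZMod.intCast_zmod_eq_zero_iff_dvd (r ^ 3 - r - 1) 3).2 (by exact_mod_cast h)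
  push_cast at this
  exact this

/-- The reciprocity input: a prime `p ≠ 23` modulo which `X^3 - X - 1` has a root and `-23` is a
square is represented by the principal form of discriminant `-23`. -/
def RecStatement : Prop :=
  ∀ p : ℕ, p.Prime → p ≠ 23 → ∀ r s : ℤ, (p : ℤ) ∣ r ^ 3 - r - 1 → (p : ℤ) ∣ s ^ 2 + 23 →
    ∃ u v : ℤ, u ^ 2 + u * v + 6 * v ^ 2 = p

theorem descent (hrec : RecStatement) : ∀ n : ℕ, 0 < n →
    (∀ p : ℕ, p.Prime → p ∣ n → ¬ Inert (p : ℤ)) →
    ∀ c d : ℤ, 2 * c ^ 2 + c * d + 3 * d ^ 2 ≠ n := by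
  intro n
  induction n using Nat.strong_induction_on with
  | _ n ih =>
  intro hn hfac c d hcd
  by_cases h1 : n = 1
  · subst h1
    have h8 : (4 * c + d) ^ 2 + 23 * d ^ 2 = 8 := by
      push_cast at hcd
      linear_combination 8 * hcd
    have hd : d = 0 := by
      by_contra hd
      have : 1 ≤ d ^ 2 := by
        have := sq_pos_of_ne_zero hd
        omega
      nlinarith [sq_nonneg (4 * c + d)]
    subst hd
    have : 16 * c ^ 2 = 8 := by linear_combination h8
    omega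
  obtain ⟨p, hp, hpn⟩ := Nat.exists_prime_and_dvd h1
  have hl : Prime (p : ℤ) := Nat.prime_iff_prime_int.1 hp
  have hni := hfac p hp hpn
  have hp2 : p ≠ 2 := by
    rintro rfl; exact hni inert_two
  have hp3 : p ≠ 3 := by
    rintro rfl; exact hni inert_three
  have hp2' : ¬ (p : ℤ) ∣ 2 := by
    intro h
    have h' : p ∣ 2 := by exact_mod_cast h
    exact hp2 ((Nat.prime_dvd_prime_iff_eq hp Nat.prime_two).1 h')
  have hroot : ∃ r : ℤ, (p : ℤ) ∣ r ^ 3 - r - 1 := by
    unfold Inert at hni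
    push Not at hni
    exact hni
  obtain ⟨r, hr⟩ := hroot
  obtain ⟨m, hm⟩ := hpn
  have hp0 : (p : ℤ) ≠ 0 := by exact_mod_cast hp.ne_zero
  have hm0 : 0 < m := by
    rcases Nat.eq_zero_or_pos m with h | h
    · subst h; omega
    · exact h
  have hcd' : 2 * c ^ 2 + c * d + 3 * d ^ 2 = p * m := by
    rw [hcd, hm]; push_cast; ring
  by_cases hs : ∃ s : ℤ, (p : ℤ) ∣ s ^ 2 + 23
  · -- split (or ramified) case
    obtain ⟨s, hs⟩ := hs
    have huv : ∃ u v : ℤ, u ^ 2 + u * v + 6 * v ^ 2 = p := by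
      by_cases h23 : p = 23
      · subst h23
        exact ⟨-1, 2, by norm_num⟩
      · exact hrec p hp h23 r s hr hs
    obtain ⟨u, v, huv⟩ := huv
    have hprod : (p : ℤ) ∣ (d * u - 2 * c * v) * (d * u + 2 * c * v + d * v) := by
      refine ⟨d ^ 2 - 2 * v ^ 2 * m, ?_⟩
      linear_combination d ^ 2 * huv - 2 * v ^ 2 * hcd'
    -- the final step, common to both cases
    have fin : ∀ X Y : ℤ, 4 * X ^ 2 + 2 * X * Y + 6 * Y ^ 2 = 2 * p ^ 2 * m → (p : ℤ) ∣ Y →
        False := by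
      intro X Y hXY hY
      have hX : (p : ℤ) ∣ X := by
        have : (p : ℤ) ∣ 2 * (2 * X ^ 2) := by
          obtain ⟨k, hk⟩ := hY
          refine ⟨2 * p * m - 2 * X * k - 6 * Y * k, ?_⟩
          linear_combination hXY - (2 * X + 6 * Y) * hk
        rcases hl.dvd_or_dvd this with h | h
        · exact absurd h hp2'
        rcases hl.dvd_or_dvd h with h | h
        · exact absurd h hp2'
        exact hl.dvd_of_dvd_pow h
      obtain ⟨X', rfl⟩ := hX
      obtain ⟨Y', rfl⟩ := hY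
      have hm' : 2 * X' ^ 2 + X' * Y' + 3 * Y' ^ 2 = m := by
        have h2 : (2 * (p : ℤ) ^ 2) * (2 * X' ^ 2 + X' * Y' + 3 * Y' ^ 2) = (2 * (p : ℤ) ^ 2) * m := by
          linear_combination hXY
        exact mul_left_cancel₀ (by positivity) h2
      refine ih m ?_ hm0 ?_ X' Y' hm'
      · rw [hm]
        have := hp.two_le
        nlinarith
      · intro q hq hqm
        exact hfac q hq (hm ▸ hqm.mul_left p)
    rcases hl.dvd_or_dvd hprod with h | h
    · exact fin (c * (u + v) + 3 * d * v) (d * u - 2 * c * v)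
        (by linear_combination 2 * (2 * c ^ 2 + c * d + 3 * d ^ 2) * huv + 2 * (p : ℤ) * hcd') h
    · exact fin (c * u - 3 * d * v) (d * u + 2 * c * v + d * v)
        (by linear_combination 2 * (2 * c ^ 2 + c * d + 3 * d ^ 2) * huv + 2 * (p : ℤ) * hcd') h
  · -- `-23` is not a square modulo `p`
    push Not at hs
    have h8 : (p : ℤ) ∣ (4 * c + d) ^ 2 + 23 * d ^ 2 :=
      ⟨8 * m, by linear_combination 8 * hcd'⟩
    have hd : (p : ℤ) ∣ d := by
      by_contra hd
      obtain ⟨a, w, haw⟩ := (hl.coprime_iff_not_dvd).2 hd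
      apply hs ((4 * c + d) * w)
      obtain ⟨k, hk⟩ := h8
      have e : w * d = 1 - a * p := by linear_combination haw
      have e2 : (w * d) ^ 2 = (1 - a * p) ^ 2 := by rw [e]
      refine ⟨w ^ 2 * k + 23 * (2 * a - a ^ 2 * p), ?_⟩
      linear_combination w ^ 2 * hk - 23 * e2
    have hc : (p : ℤ) ∣ c := by
      have h4 : (p : ℤ) ∣ 4 * c + d := by
        apply hl.dvd_of_dvd_pow (n := 2)
        obtain ⟨k, hk⟩ := h8
        obtain ⟨j, hj⟩ := hd
        exact ⟨k - 23 * d * j, by linear_combination hk - 23 * d * hj⟩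
      have h4' : (p : ℤ) ∣ 2 * (2 * c) := by
        have := dvd_sub h4 hd
        have e : 4 * c + d - d = 2 * (2 * c) := by ring
        rwa [e] at this
      rcases hl.dvd_or_dvd h4' with h | h
      · exact absurd h hp2'
      rcases hl.dvd_or_dvd h with h | h
      · exact absurd h hp2'
      exact h
    obtain ⟨c', rfl⟩ := hc
    obtain ⟨d', rfl⟩ := hd
    have hpm : (m : ℤ) = p * (2 * c' ^ 2 + c' * d' + 3 * d' ^ 2) := by
      have : (p : ℤ) * m = p * (p * (2 * c' ^ 2 + c' * d' + 3 * d' ^ 2)) := by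
        linear_combination -hcd'
      exact mul_left_cancel₀ hp0 this
    have hpm' : p ∣ m := by
      have : (p : ℤ) ∣ m := ⟨_, hpm⟩
      exact_mod_cast this
    obtain ⟨m', rfl⟩ := hpm'
    have hm' : 2 * c' ^ 2 + c' * d' + 3 * d' ^ 2 = (m' : ℤ) := by
      push_cast at hpm
      exact (mul_left_cancel₀ hp0 hpm).symm
    have hm'0 : 0 < m' := by
      rcases Nat.eq_zero_or_pos m' with h | h
      · subst h; omega
      · exact h
    refine ih m' ?_ hm'0 ?_ c' d' hm'
    · rw [hm]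
      have := hp.two_le
      nlinarith [mul_pos hm'0 hm0]
    · intro q hq hqm
      refine hfac q hq ?_
      rw [hm]
      exact (hqm.mul_left p).mul_left p

/-- Any integer zero of `F` is divisible by some prime. -/
theorem exists_prime_dvd (hrec : RecStatement) (x y z t : ℤ) (hF : F x y z t = 0) :
    ∃ p : ℕ, p.Prime ∧ (p : ℤ) ∣ x ∧ (p : ℤ) ∣ y ∧ (p : ℤ) ∣ z ∧ (p : ℤ) ∣ t := by
  have hkey := key_identity x y z t
  rw [hF, zero_mul] at hkey
  have hkey' : 2 * cc x y z t ^ 2 + cc x y z t * dd x y z t + 3 * dd x y z t ^ 2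
      = nrm (Q1 x y z t) (Q2 x y z t) (Q3 x y z t) := by linarith
  have hFd : ∀ p : ℕ, (p : ℤ) ∣ F x y z t := by
    intro p; rw [hF]; exact dvd_zero _
  have main : ∀ p : ℕ, p.Prime → Inert (p : ℤ) →
      (p : ℤ) ∣ nrm (Q1 x y z t) (Q2 x y z t) (Q3 x y z t) →
      (p : ℤ) ∣ x ∧ (p : ℤ) ∣ y ∧ (p : ℤ) ∣ z ∧ (p : ℤ) ∣ t := by
    intro p hp hi hd
    obtain ⟨h1, h2, h3⟩ := nrm_inert (Nat.prime_iff_prime_int.1 hp) hi hd
    exact elim hp hi (hFd p) h1 h2 h3
  have hnn : 0 ≤ nrm (Q1 x y z t) (Q2 x y z t) (Q3 x y z t) := by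
    rw [← hkey']
    nlinarith [sq_nonneg (4 * cc x y z t + dd x y z t), sq_nonneg (dd x y z t)]
  by_contra hcon
  push Not at hcon
  obtain ⟨n, hn⟩ := Int.eq_ofNat_of_zero_le hnn
  rcases Nat.eq_zero_or_pos n with h0 | hpos
  · have h2 : ((2 : ℕ) : ℤ) ∣ nrm (Q1 x y z t) (Q2 x y z t) (Q3 x y z t) := by
      rw [hn, h0]; simp
    obtain ⟨a, b, c, d⟩ := main 2 Nat.prime_two (by exact_mod_cast inert_two) h2
    exact hcon 2 Nat.prime_two a b c d
  · refine descent hrec n hpos ?_ (cc x y z t) (dd x y z t) (by rw [hkey', hn])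
    intro p hp hpn hi
    obtain ⟨a, b, c, d⟩ := main p hp hi (by rw [hn]; exact_mod_cast hpn)
    exact hcon p hp a b c d

theorem no_zeros (hrec : RecStatement) : ∀ x y z t : ℤ, F x y z t = 0 →
    x = 0 ∧ y = 0 ∧ z = 0 ∧ t = 0 := by
  suffices H : ∀ N : ℕ, ∀ x y z t : ℤ, x.natAbs + y.natAbs + z.natAbs + t.natAbs = N →
      F x y z t = 0 → x = 0 ∧ y = 0 ∧ z = 0 ∧ t = 0 by
    intro x y z t h
    exact H _ x y z t rfl h
  intro N
  induction N using Nat.strong_induction_on with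
  | _ N ih =>
  intro x y z t hN hF
  by_cases h0 : N = 0
  · subst h0
    simp only [Nat.add_eq_zero_iff, Int.natAbs_eq_zero] at hN
    tauto
  obtain ⟨p, hp, ⟨x', rfl⟩, ⟨y', rfl⟩, ⟨z', rfl⟩, ⟨t', rfl⟩⟩ := exists_prime_dvd hrec x y z t hF
  have hp0 : (p : ℤ) ≠ 0 := by exact_mod_cast hp.ne_zero
  have hF' : F x' y' z' t' = 0 := by
    have : (p : ℤ) ^ 3 * F x' y' z' t' = 0 := by
      rw [← hF]; unfold F; ring
    rcases mul_eq_zero.1 this with h | h
    · exact absurd h (pow_ne_zero 3 hp0)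
    · exact h
  have hlt : x'.natAbs + y'.natAbs + z'.natAbs + t'.natAbs < N := by
    rw [← hN]
    simp only [Int.natAbs_mul, Int.natAbs_natCast]
    have h2 := hp.two_le
    have hne : x'.natAbs + y'.natAbs + z'.natAbs + t'.natAbs ≠ 0 := by
      intro h
      simp only [Nat.add_eq_zero_iff] at h
      obtain ⟨⟨⟨a, b⟩, c⟩, d⟩ := h
      apply h0
      rw [← hN]
      simp [Int.natAbs_mul, a, b, c, d]
    nlinarith [Nat.pos_of_ne_zero hne]
  obtain ⟨a, b, c, d⟩ := ih _ hlt x' y' z' t' rfl hF'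
  subst a; subst b; subst c; subst d
  simp

end Pool.Agent.H12.Cubic
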