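import Mathlib

/-! Elementary part of the proof that the quaternary cubic form of MP_3a7aac_nt has no
nontrivial integer zeros. -/

namespace Pool.Agent.H12.Cubic

/-- `X^3 - X - 1` has no root modulo `l`. -/
def Inert (l : ℤ) : Prop := ∀ r : ℤ, ¬ (l ∣ r ^ 3 - r - 1)

theorem form_inert {l : ℤ} (hl : Prime l) (hi : Inert l) {u v : ℤ}
    (h : l ∣ u ^ 3 - u * v ^ 2 - v ^ 3) : l ∣ u ∧ l ∣ v := by
  by_cases hv : l ∣ v
  · refine ⟨?_, hv⟩
    obtain ⟨k, rfl⟩ := hv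
    have : l ∣ u ^ 3 := by
      obtain ⟨m, hm⟩ := h
      exact ⟨m + u * k ^ 2 * l + l ^ 2 * k ^ 3, by linear_combination hm⟩
    exact hl.dvd_of_dvd_pow this
  · exfalso
    have hcop : IsCoprime l v := by
      rcases (hl.coprime_iff_not_dvd).2 hv with h1
      exact h1
    obtain ⟨a, w, haw⟩ := hcop
    -- a * l + w * v = 1
    apply hi (u * w)
    obtain ⟨m, hm⟩ := h
    -- (u w)^3 - u w - 1
    have e : w * v = 1 - a * l := by linear_combination haw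
    refine ⟨w ^ 3 * m - (u * w) * (2 * a - a ^ 2 * l) - (3 * a - 3 * a ^ 2 * l + a ^ 3 * l ^ 2), ?_⟩
    have e2 : (w * v) ^ 2 = (1 - a * l) ^ 2 := by rw [e]
    have e3 : (w * v) ^ 3 = (1 - a * l) ^ 3 := by rw [e]
    linear_combination w ^ 3 * hm + u * w * e2 + e3

/-- The norm form of `ℤ[θ]`, `θ^3 = θ + 1`. -/
def nrm (a b c : ℤ) : ℤ :=
  a ^ 3 + b ^ 3 + c ^ 3 + 2 * a ^ 2 * c + a * c ^ 2 - a * b ^ 2 - 3 * a * b * c - b * c ^ 2

theorem nrm_inert {l : ℤ} (hl : Prime l) (hi : Inert l) {a b c : ℤ}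
    (h : l ∣ nrm a b c) : l ∣ a ∧ l ∣ b ∧ l ∣ c := by
  -- multiply by the conjugate `-b + c θ`
  have h1 : l ∣ (-(c ^ 2 - a * b)) ^ 3 - (-(c ^ 2 - a * b)) * (a * c - b ^ 2 + c ^ 2) ^ 2
      - (a * c - b ^ 2 + c ^ 2) ^ 3 := by
    obtain ⟨m, hm⟩ := h
    refine ⟨- m * nrm (-b) c 0, ?_⟩
    unfold nrm at hm ⊢
    linear_combination (-((-b) ^ 3 + c ^ 3 - (-b) * c ^ 2)) * hm
  obtain ⟨h2, h3⟩ := form_inert hl hi h1
  have h4 : l ∣ b ^ 3 - b * c ^ 2 - c ^ 3 := by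
    obtain ⟨m, hm⟩ := h2
    obtain ⟨k, hk⟩ := h3
    exact ⟨-b * k + c * m, by linear_combination -b * hk + c * hm⟩
  obtain ⟨hb, hc⟩ := form_inert hl hi h4
  refine ⟨?_, hb, hc⟩
  have : l ∣ a ^ 3 := by
    obtain ⟨m, hm⟩ := h
    obtain ⟨k, rfl⟩ := hb
    obtain ⟨j, rfl⟩ := hc
    unfold nrm at hm
    refine ⟨m - (l ^ 2 * k ^ 3 + l ^ 2 * j ^ 3 + 2 * a ^ 2 * j + a * l * j ^ 2 - a * l * k ^ 2
      - 3 * a * k * l * j - k * l ^ 2 * j ^ 2), ?_⟩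
    linear_combination hm
  exact hl.dvd_of_dvd_pow this

/-- The cubic form. -/
def F (x y z t : ℤ) : ℤ :=
  x ^ 3 + 2 * x ^ 2 * y + y ^ 3 + y ^ 2 * z + x * z ^ 2 + z ^ 3 + t ^ 2 * x - t ^ 2 * y
    - t ^ 2 * z + t * y * z + t ^ 3

def Q1 (x y z t : ℤ) : ℤ :=
  -4 * x * y - 4 * x * z + 4 * x * t + y ^ 2 - y * z - 2 * y * t - z ^ 2 - 2 * z * t + t ^ 2

def Q2 (x y z t : ℤ) : ℤ :=
  -3 * x * z + 3 * y ^ 2 + 2 * y * z - 3 * y * t + z ^ 2 - z * t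

def Q3 (x y z t : ℤ) : ℤ :=
  3 * x * y + 4 * x * z - 3 * x * t - y ^ 2 - 2 * y * z + y * t + 2 * z * t

def cc (x y z t : ℤ) : ℤ :=
  -3 * x ^ 3 - 6 * x ^ 2 * y + 2 * x * y ^ 2 + 2 * x * y * z - 4 * x * y * t - x * z ^ 2
    - 2 * x * z * t - x * t ^ 2 - 3 * y ^ 3 - 5 * y ^ 2 * z + 3 * y ^ 2 * t - 2 * y * z ^ 2
    + 2 * y * z * t - 3 * y * t ^ 2 + z ^ 2 * t

def dd (x y z t : ℤ) : ℤ :=
  2 * x ^ 3 + 4 * x ^ 2 * y - x * y ^ 2 + x * y * z + 2 * x * y * t + 2 * x * z ^ 2 - x * z * t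
    + x * t ^ 2 + 2 * y ^ 3 + 3 * y ^ 2 * z - 2 * y ^ 2 * t - 2 * y * z ^ 2 - y * z * t
    + 2 * y * t ^ 2 + z ^ 2 * t

theorem key_identity (x y z t : ℤ) :
    2 * cc x y z t ^ 2 + cc x y z t * dd x y z t + 3 * dd x y z t ^ 2
      - nrm (Q1 x y z t) (Q2 x y z t) (Q3 x y z t)
    = F x y z t * (24 * x ^ 3 + 48 * x ^ 2 * y - 29 * x * y ^ 2 - 11 * x * y * z + 58 * x * y * t
      + 4 * x * z ^ 2 + 11 * x * z * t - 5 * x * t ^ 2 + y ^ 3 + 30 * y ^ 2 * z + 21 * y ^ 2 * t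
      + 2 * y * z ^ 2 - 7 * y * z * t + 3 * y * t ^ 2 - z ^ 3 - z ^ 2 * t + z * t ^ 2 - t ^ 3) := by
  unfold nrm cc dd F Q1 Q2 Q3
  ring

theorem cert_z (x y z t : ℤ) :
    50564243328 * z ^ 5 =
    (-9967951680 * y ^ 2 + 25730427840 * y * z + 9974449536 * y * t + 6404850048 * z ^ 2 -
      35691881664 * z * t - 6497856 * t ^ 2) * F x y z t
    + (-2491987920 * x ^ 2 * y + 8924594880 * x ^ 2 * z + 1624464 * x ^ 2 * t - 5606972820 * x
      * y ^ 2 + 14002950072 * x * y * z + 626652024 * x * y * t - 17290931700 * x * z ^ 2 -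
      362970012 * x * z * t - 406116 * x * t ^ 2 - 1401743205 * y ^ 3 + 50362997517 * y ^ 2 * z
      + 439761678 * y ^ 2 * t + 66073432795 * y * z ^ 2 - 91077743154 * y * z * t - 1534879785
      * y * t ^ 2 + 19885734008 * z ^ 3 - 63012251351 * z ^ 2 * t + 38498799345 * z * t ^ 2 +
      6497856 * t ^ 3) * Q1 x y z t
    + (-9764509824 * x ^ 2 * z + 16824874032 * x * z ^ 2 - 25266050384 * x * z * t + 2490363456
      * x * t ^ 2 + 3789898295 * y ^ 3 - 4190694575 * y ^ 2 * z - 1113176261 * y ^ 2 * t +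
      47717315445 * y * z ^ 2 + 19884658213 * y * z * t - 2999503371 * y * t ^ 2 + 64045127288
      * z ^ 3 - 39082605441 * z ^ 2 * t - 23765925650 * z * t ^ 2 + 2813144793 * t ^ 3) * Q2 x
      y z t
    + (62534929747 * y ^ 2 * z - 1491526044 * y ^ 2 * t + 62738052357 * y * z ^ 2 - 93397607882
      * y * z * t - 1005199896 * y * t ^ 2 + 57789415529 * z ^ 3 - 58158384626 * z ^ 2 * t +
      35670272871 * z * t ^ 2 + 6362484 * t ^ 3) * Q3 x y z t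
    := by
  unfold F Q1 Q2 Q3
  ring

theorem cert_w (x y z t : ℤ) :
    12641060832 * (y - t) ^ 5 =
    (-14608868160 * y ^ 2 + 16885570320 * y * z + 32731738512 * y * t - 5577266256 * z ^ 2 -
      13371568128 * z * t - 18122870352 * t ^ 2) * F x y z t
    + (-3652217040 * x ^ 2 * y + 7873609620 * x ^ 2 * z + 4530717588 * x ^ 2 * t - 8217488340 *
      x * y ^ 2 + 10273803981 * x * y * z + 11107168833 * x * y * t - 20296402710 * x * z ^ 2 -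
      1494598419 * x * z * t - 1132679397 * x * t ^ 2 - 2054372085 * y ^ 3 + 8210188716 * y ^ 2
      * z + 14348237097 * y ^ 2 * t + 14444994309 * y * z ^ 2 - 715003179 * y * z * t -
      16897173984 * y * t ^ 2 + 10095622542 * z ^ 3 - 10954104921 * z ^ 2 * t - 8675783919 * z
      * t ^ 2 + 5481809520 * t ^ 3) * Q1 x y z t
    + (-12357234912 * x ^ 2 * z + 20318255436 * x * z ^ 2 - 27709306360 * x * z * t - 878500548
      * x * t ^ 2 + 9768100359 * y ^ 3 - 6755123973 * y ^ 2 * z - 24133430819 * y ^ 2 * t +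
      2491151271 * y * z ^ 2 + 28410283439 * y * z * t + 26593805093 * y * t ^ 2 + 15672888798
      * z ^ 3 + 12099714753 * z ^ 2 * t - 21376689452 * z * t ^ 2 - 13106975181 * t ^ 3) * Q2 x
      y z t
    + (11812091760 * y ^ 2 * z + 12689430405 * y ^ 2 * t - 295395552 * y * z ^ 2 + 11270919875
      * y * z * t - 12701492634 * y * t ^ 2 + 13090941168 * z ^ 3 + 2671195999 * z ^ 2 * t -
      8489834770 * z * t ^ 2 + 890562777 * t ^ 3) * Q3 x y z t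
    := by
  unfold F Q1 Q2 Q3
  ring


theorem two_case : ∀ x y z t : ZMod 2,
    x ^ 3 + 2 * x ^ 2 * y + y ^ 3 + y ^ 2 * z + x * z ^ 2 + z ^ 3 + t ^ 2 * x - t ^ 2 * y
    - t ^ 2 * z + t * y * z + t ^ 3 = 0 →
    -4 * x * y - 4 * x * z + 4 * x * t + y ^ 2 - y * z - 2 * y * t - z ^ 2 - 2 * z * t + t ^ 2 = 0 →
    -3 * x * z + 3 * y ^ 2 + 2 * y * z - 3 * y * t + z ^ 2 - z * t = 0 →
    3 * x * y + 4 * x * z - 3 * x * t - y ^ 2 - 2 * y * z + y * t + 2 * z * t = 0 →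
    x = 0 ∧ y = 0 ∧ z = 0 ∧ t = 0 := by
  decide

theorem three_case : ∀ x y z t : ZMod 3,
    x ^ 3 + 2 * x ^ 2 * y + y ^ 3 + y ^ 2 * z + x * z ^ 2 + z ^ 3 + t ^ 2 * x - t ^ 2 * y
    - t ^ 2 * z + t * y * z + t ^ 3 = 0 →
    -4 * x * y - 4 * x * z + 4 * x * t + y ^ 2 - y * z - 2 * y * t - z ^ 2 - 2 * z * t + t ^ 2 = 0 →
    -3 * x * z + 3 * y ^ 2 + 2 * y * z - 3 * y * t + z ^ 2 - z * t = 0 →
    3 * x * y + 4 * x * z - 3 * x * t - y ^ 2 - 2 * y * z + y * t + 2 * z * t = 0 →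
    x = 0 ∧ y = 0 ∧ z = 0 ∧ t = 0 := by
  decide +kernel

theorem elim {p : ℕ} (hp : p.Prime) (hi : Inert (p : ℤ)) {x y z t : ℤ}
    (hF : (p : ℤ) ∣ F x y z t) (h1 : (p : ℤ) ∣ Q1 x y z t) (h2 : (p : ℤ) ∣ Q2 x y z t)
    (h3 : (p : ℤ) ∣ Q3 x y z t) :
    (p : ℤ) ∣ x ∧ (p : ℤ) ∣ y ∧ (p : ℤ) ∣ z ∧ (p : ℤ) ∣ t := by
  have hl : Prime (p : ℤ) := Nat.prime_iff_prime_int.1 hp
  by_cases hp2 : p = 2
  · subst hp2
    rw [← ZMod.intCast_zmod_eq_zero_iff_dvd, ← ZMod.intCast_zmod_eq_zero_iff_dvd,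
      ← ZMod.intCast_zmod_eq_zero_iff_dvd, ← ZMod.intCast_zmod_eq_zero_iff_dvd]
    rw [← ZMod.intCast_zmod_eq_zero_iff_dvd] at hF h1 h2 h3
    unfold F at hF
    unfold Q1 at h1
    unfold Q2 at h2
    unfold Q3 at h3
    push_cast at hF h1 h2 h3
    exact two_case x y z t hF h1 h2 h3
  by_cases hp3 : p = 3
  · subst hp3
    rw [← ZMod.intCast_zmod_eq_zero_iff_dvd, ← ZMod.intCast_zmod_eq_zero_iff_dvd,
      ← ZMod.intCast_zmod_eq_zero_iff_dvd, ← ZMod.intCast_zmod_eq_zero_iff_dvd]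
    rw [← ZMod.intCast_zmod_eq_zero_iff_dvd] at hF h1 h2 h3
    unfold F at hF
    unfold Q1 at h1
    unfold Q2 at h2
    unfold Q3 at h3
    push_cast at hF h1 h2 h3
    exact three_case x y z t hF h1 h2 h3
  have hp2' : ¬ (p : ℤ) ∣ 2 := by
    intro h
    have h' : p ∣ 2 := by exact_mod_cast h
    exact hp2 ((Nat.prime_dvd_prime_iff_eq hp Nat.prime_two).1 h')
  have hp3' : ¬ (p : ℤ) ∣ 3 := by
    intro h
    have h' : p ∣ 3 := by exact_mod_cast h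
    exact hp3 ((Nat.prime_dvd_prime_iff_eq hp Nat.prime_three).1 h')
  have hbig : ¬ (p : ℤ) ∣ 131677717 := by
    intro h
    apply hi 18148083
    refine h.trans ?_
    norm_num
  have hz : (p : ℤ) ∣ z := by
    have e : (p : ℤ) ∣ 50564243328 * z ^ 5 := by
      rw [cert_z x y z t]
      exact dvd_add (dvd_add (dvd_add (hF.mul_left _) (h1.mul_left _)) (h2.mul_left _))
        (h3.mul_left _)
    have e1 : (p : ℤ) ∣ 2 ^ 7 * (3 * (131677717 * z ^ 5)) := by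
      have : (2 : ℤ) ^ 7 * (3 * (131677717 * z ^ 5)) = 50564243328 * z ^ 5 := by ring
      rw [this]; exact e
    rcases hl.dvd_or_dvd e1 with h | h
    · exact absurd (hl.dvd_of_dvd_pow h) hp2'
    rcases hl.dvd_or_dvd h with h | h
    · exact absurd h hp3'
    rcases hl.dvd_or_dvd h with h | h
    · exact absurd h hbig
    exact hl.dvd_of_dvd_pow h
  have hw : (p : ℤ) ∣ y - t := by
    have e : (p : ℤ) ∣ 12641060832 * (y - t) ^ 5 := by
      rw [cert_w x y z t]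
      exact dvd_add (dvd_add (dvd_add (hF.mul_left _) (h1.mul_left _)) (h2.mul_left _))
        (h3.mul_left _)
    have e1 : (p : ℤ) ∣ 2 ^ 5 * (3 * (131677717 * (y - t) ^ 5)) := by
      have : (2 : ℤ) ^ 5 * (3 * (131677717 * (y - t) ^ 5)) = 12641060832 * (y - t) ^ 5 := by ring
      rw [this]; exact e
    rcases hl.dvd_or_dvd e1 with h | h
    · exact absurd (hl.dvd_of_dvd_pow h) hp2'
    rcases hl.dvd_or_dvd h with h | h
    · exact absurd h hp3'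
    rcases hl.dvd_or_dvd h with h | h
    · exact absurd h hbig
    exact hl.dvd_of_dvd_pow h
  -- the form restricted to the line
  have hline : (p : ℤ) ∣ (-y) ^ 3 - (-y) * (x + y) ^ 2 - (x + y) ^ 3 := by
    obtain ⟨a, ha⟩ := hz
    obtain ⟨b, hb⟩ := hw
    obtain ⟨m, hm⟩ := hF
    have ht : t = y - p * b := by linear_combination -hb
    subst ht
    subst ha
    unfold F at hm
    refine ⟨-m + (y ^ 2 * a + x * a * (p * a) + a * (p * a) ^ 2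
      + (- 2 * y * b + p * b ^ 2) * x - (- 2 * y * b + p * b ^ 2) * y
      - (y - p * b) ^ 2 * a + (y - p * b) * y * a
      + (-3 * y ^ 2 * b + 3 * y * p * b ^ 2 - p ^ 2 * b ^ 3)), ?_⟩
    linear_combination -hm
  obtain ⟨hy, hxy⟩ := form_inert hl hi hline
  have hy' : (p : ℤ) ∣ y := (dvd_neg).1 hy
  have hx : (p : ℤ) ∣ x := by
    have := dvd_sub hxy hy'
    simpa using this
  have ht : (p : ℤ) ∣ t := by
    have := dvd_sub hy' hw
    simpa using this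
  exact ⟨hx, hy', hz, ht⟩

end Pool.Agent.H12.Cubic
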