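import Mathlib

open Polynomial NumberField

namespace Pool.Agent.H12.HCF

theorem leftMulMatrix_eq_of {R S ι : Type*} [CommRing R] [CommRing S] [Algebra R S] [Fintype ι]
    [DecidableEq ι] (b : Module.Basis ι R S) (x : S) (M : Matrix ι ι R)
    (h : ∀ j, x * b j = ∑ i, M i j • b i) : Algebra.leftMulMatrix b x = M := by
  ext i j
  rw [Algebra.leftMulMatrix_eq_repr_mul, h j]
  simp [Finsupp.single_apply]

noncomputable section

/-- The cubic polynomial `X^3 - X - 1`. -/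
def f : ℚ[X] := X ^ 3 - X - 1

theorem f_monic : f.Monic := by
  unfold f; monicity!

theorem f_natDegree : f.natDegree = 3 := by
  unfold f; compute_degree!

theorem no_rat_root (x : ℚ) : x ^ 3 - x - 1 ≠ 0 := by
  intro hx
  have hint : IsIntegral ℤ x := by
    refine ⟨X ^ 3 - X - 1, by monicity!, ?_⟩
    simp [hx]
  obtain ⟨n, rfl⟩ := IsIntegrallyClosed.isIntegral_iff.1 hint
  have h1 : n ^ 3 - n - 1 = 0 := by
    have : ((n ^ 3 - n - 1 : ℤ) : ℚ) = 0 := by push_cast; simpa using hx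
    exact_mod_cast this
  have h2 : n * (n ^ 2 - 1) = 1 := by linear_combination h1
  rcases Int.isUnit_iff.1 (IsUnit.of_mul_eq_one _ h2) with h | h <;> subst h <;> norm_num at h2

theorem f_irred : Irreducible f := by
  apply Polynomial.irreducible_of_degree_le_three_of_not_isRoot
  · rw [f_natDegree]; decide
  · intro x hx
    apply no_rat_root x
    simpa [f] using hx

instance : Fact (Irreducible f) := ⟨f_irred⟩

abbrev K₁ := AdjoinRoot f

abbrev θ : K₁ := AdjoinRoot.root f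

theorem hθ : θ ^ 3 = θ + 1 := by
  have h : eval₂ (AdjoinRoot.of f) (AdjoinRoot.root f) (X ^ 3 - X - 1) = 0 :=
    AdjoinRoot.eval₂_root f
  rw [eval₂_sub, eval₂_sub, eval₂_pow, eval₂_X, eval₂_one] at h
  linear_combination h

/-- The power basis of `K₁`. -/
def pb₁ : PowerBasis ℚ K₁ := AdjoinRoot.powerBasis f_irred.ne_zero

instance : FiniteDimensional ℚ K₁ := pb₁.finite

instance : NumberField K₁ where

theorem pb₁_dim : pb₁.dim = 3 := by
  simp [pb₁, f_natDegree]

/-- The basis `1, θ, θ^2`. -/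
def b₁ : Module.Basis (Fin 3) ℚ K₁ := pb₁.basis.reindex (finCongr pb₁_dim)

theorem b₁_apply (i : Fin 3) : b₁ i = θ ^ (i : ℕ) := by
  simp [b₁, pb₁]

theorem b₁_0 : b₁ 0 = 1 := by simp [b₁_apply]
theorem b₁_1 : b₁ 1 = θ := by simp [b₁_apply]
theorem b₁_2 : b₁ 2 = θ ^ 2 := by simp [b₁_apply]

theorem norm₁ (a b c : ℚ) :
    Algebra.norm ℚ ((a : K₁) + (b : K₁) * θ + (c : K₁) * θ ^ 2)
      = a ^ 3 + b ^ 3 + c ^ 3 + 2 * a ^ 2 * c + a * c ^ 2 - a * b ^ 2 - 3 * a * b * c - b * c ^ 2 := by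
  have hM : Algebra.leftMulMatrix b₁ ((a : K₁) + (b : K₁) * θ + (c : K₁) * θ ^ 2)
      = !![a, c, b; b, a + c, b + c; c, b, a + c] := by
    apply leftMulMatrix_eq_of
    intro j
    fin_cases j
    · simp [Fin.sum_univ_three, b₁_0, b₁_1, b₁_2, Algebra.smul_def]
    · simp [Fin.sum_univ_three, b₁_0, b₁_1, b₁_2, Algebra.smul_def]
      linear_combination (c : K₁) * hθ
    · simp [Fin.sum_univ_three, b₁_0, b₁_1, b₁_2, Algebra.smul_def]
      linear_combination ((b : K₁) + (c : K₁) * θ) * hθ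
  rw [Algebra.norm_eq_matrix_det b₁, hM, Matrix.det_fin_three]
  simp
  ring

/-- `4 - 3 θ^2`, the discriminant of `X^2 + θ X + θ^2 - 1`, has norm `-23`. -/
theorem norm_disc : Algebra.norm ℚ (4 - 3 * θ ^ 2 : K₁) = -23 := by
  have h := norm₁ 4 0 (-3)
  have e : ((4 : ℚ) : K₁) + ((0 : ℚ) : K₁) * θ + ((-3 : ℚ) : K₁) * θ ^ 2 = 4 - 3 * θ ^ 2 := by
    push_cast; ring
  rw [e] at h
  rw [h]; norm_num

theorem norm_deriv : Algebra.norm ℚ (3 * θ ^ 2 - 1 : K₁) = 23 := by
  have h := norm₁ (-1) 0 3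
  have e : ((-1 : ℚ) : K₁) + ((0 : ℚ) : K₁) * θ + ((3 : ℚ) : K₁) * θ ^ 2 = 3 * θ ^ 2 - 1 := by
    push_cast; ring
  rw [e] at h
  rw [h]; norm_num

/-- The quadratic polynomial `X^2 + θ X + (θ^2 - 1)` over `K₁`. -/
def g : K₁[X] := X ^ 2 + C θ * X + C (θ ^ 2 - 1)

theorem g_monic : g.Monic := by
  unfold g; monicity!

theorem g_natDegree : g.natDegree = 2 := by
  unfold g; compute_degree!

theorem disc_not_sq (x : K₁) : x ^ 2 ≠ 4 - 3 * θ ^ 2 := by
  intro h
  have h1 := congrArg (Algebra.norm ℚ) h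
  rw [norm_disc, map_pow] at h1
  nlinarith [sq_nonneg (Algebra.norm ℚ x)]

theorem g_irred : Irreducible g := by
  apply Polynomial.irreducible_of_degree_le_three_of_not_isRoot
  · rw [g_natDegree]; decide
  · intro x hx
    apply disc_not_sq (2 * x + θ)
    have h : x ^ 2 + θ * x + (θ ^ 2 - 1) = 0 := by
      simpa [g] using hx
    linear_combination 4 * h

instance : Fact (Irreducible g) := ⟨g_irred⟩

/-- The splitting field of `X^3 - X - 1` (the Hilbert class field of `ℚ(√-23)`). -/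
abbrev K := AdjoinRoot g

abbrev η : K := AdjoinRoot.root g

/-- The image of `θ` in `K`. -/
abbrev θ' : K := algebraMap K₁ K θ

theorem hη : η ^ 2 + θ' * η + (θ' ^ 2 - 1) = 0 := by
  have h : eval₂ (AdjoinRoot.of g) (AdjoinRoot.root g) (X ^ 2 + C θ * X + C (θ ^ 2 - 1)) = 0 :=
    AdjoinRoot.eval₂_root g
  rw [eval₂_add, eval₂_add, eval₂_mul, eval₂_pow, eval₂_X, eval₂_C, eval₂_C, map_sub, map_one,
    map_pow] at h
  exact h

theorem hθ' : θ' ^ 3 = θ' + 1 := by
  have h := congrArg (algebraMap K₁ K) hθ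
  rw [map_add, map_one, map_pow] at h
  exact h

def pb : PowerBasis K₁ K := AdjoinRoot.powerBasis g_irred.ne_zero

instance : FiniteDimensional K₁ K := pb.finite
instance : FiniteDimensional ℚ K := FiniteDimensional.trans ℚ K₁ K
instance : CharZero K := charZero_of_injective_algebraMap (algebraMap K₁ K).injective
instance : NumberField K where

theorem finrank_K₁ : Module.finrank ℚ K₁ = 3 := by
  rw [pb₁.finrank, pb₁_dim]

theorem finrank_K_K₁ : Module.finrank K₁ K = 2 := by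
  rw [pb.finrank]
  unfold pb
  rw [AdjoinRoot.powerBasis_dim, g_natDegree]

theorem finrank_K : Module.finrank ℚ K = 6 := by
  rw [← Module.finrank_mul_finrank ℚ K₁ K, finrank_K₁, finrank_K_K₁]

/-- A square root of `-23` in `K`. -/
def δ : K := (θ' - η) * (2 * η + θ') * (-2 * θ' - η)

theorem hδ : δ ^ 2 = -23 := by
  unfold δ
  linear_combination (31 * θ' ^ 4 - 19 * θ' ^ 3 * η - 15 * θ' ^ 2 * η ^ 2 - 23 * θ' ^ 2
    + 8 * θ' * η ^ 3 + 4 * θ' * η + 4 * η ^ 4 + 4 * η ^ 2 + 4) * hη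
    + (-27 * θ' ^ 3 + 27 * θ' - 27) * hθ'

end

end Pool.Agent.H12.HCF
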