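import Pool.Agent.H12.Field

open Polynomial NumberField Module

namespace Pool.Agent.H12.HCF

noncomputable section

theorem no_real (φ : K →+* ℂ) : ¬ ComplexEmbedding.IsReal φ := by
  intro h
  have h1 : (starRingEnd ℂ) (φ δ) = φ δ := by
    have := RingHom.congr_fun (ComplexEmbedding.isReal_iff.1 h) δ
    simpa using this
  have h2 : (φ δ) ^ 2 = -23 := by
    rw [← map_pow, hδ, map_neg]
    exact congrArg Neg.neg (map_ofNat φ 23)
  obtain ⟨r, hr⟩ := Complex.conj_eq_iff_real.1 h1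
  rw [hr] at h2
  have h3 : r ^ 2 = -23 := by exact_mod_cast h2
  nlinarith [sq_nonneg r]

instance : IsTotallyComplex K where
  isComplex w := by
    rw [← InfinitePlace.not_isReal_iff_isComplex]
    intro h
    exact no_real w.embedding (InfinitePlace.isReal_iff.1 h)

theorem nrComplexPlaces_K : InfinitePlace.nrComplexPlaces K = 3 := by
  have h := IsTotallyComplex.finrank K
  rw [finrank_K] at h
  omega

theorem θ_integral : IsIntegral ℤ θ := by
  refine ⟨X ^ 3 - X - 1, by monicity!, ?_⟩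
  simp
  linear_combination hθ

/-- `θ` as an algebraic integer. -/
def θi : 𝓞 K₁ := ⟨θ, θ_integral⟩

theorem adjoin_θ : Algebra.adjoin ℚ {algebraMap (𝓞 K₁) K₁ θi} = ⊤ :=
  AdjoinRoot.adjoinRoot_eq_top

theorem deriv_θ : algebraMap (𝓞 K₁) K₁ (aeval θi (derivative (minpoly ℤ θi))) = 3 * θ ^ 2 - 1 := by
  have h : minpoly ℚ (algebraMap (𝓞 K₁) K₁ θi) = (minpoly ℤ θi).map (algebraMap ℤ ℚ) :=
    minpoly.isIntegrallyClosed_eq_field_fractions ℚ K₁ (RingOfIntegers.isIntegral θi)
  have h2 : minpoly ℚ (algebraMap (𝓞 K₁) K₁ θi) = f := by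
    have := AdjoinRoot.minpoly_root f_irred.ne_zero
    rw [f_monic.leadingCoeff, inv_one, C_1, mul_one] at this
    exact this
  calc algebraMap (𝓞 K₁) K₁ (aeval θi (derivative (minpoly ℤ θi)))
      = aeval θ (derivative (minpoly ℚ (algebraMap (𝓞 K₁) K₁ θi))) := by
        rw [h, derivative_map, aeval_map_algebraMap, ← aeval_algebraMap_apply]
        rfl
    _ = aeval θ (derivative f) := by rw [h2]
    _ = 3 * θ ^ 2 - 1 := by
        simp [f]
        left; norm_num

theorem absNorm_span (K : Type*) [Field K] [NumberField K] (x : 𝓞 K) (n : ℕ) (m : ℚ)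
    (h : Algebra.norm ℚ (algebraMap (𝓞 K) K x) = m) (hm : |m| = n) :
    Ideal.absNorm (Ideal.span {x}) = n := by
  rw [Ideal.absNorm_span_singleton]
  have h1 : ((Algebra.norm ℤ x : ℤ) : ℚ) = m := by
    rw [← h]
    exact Algebra.coe_norm_int x
  have h2 : (((Algebra.norm ℤ x).natAbs : ℕ) : ℚ) = n := by
    rw [← hm, ← h1]
    simp
  exact_mod_cast h2

theorem discr_K₁ : (discr K₁).natAbs ≤ 23 := by
  have h := aeval_derivative_mem_differentIdeal ℤ ℚ K₁ θi adjoin_θ
  have h1 : differentIdeal ℤ (𝓞 K₁) ∣ Ideal.span {aeval θi (derivative (minpoly ℤ θi))} :=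
    Ideal.dvd_span_singleton.2 h
  have h2 := map_dvd Ideal.absNorm h1
  rw [absNorm_differentIdeal K₁, absNorm_span K₁ _ 23 23 (by rw [deriv_θ, norm_deriv]) (by norm_num)]
    at h2
  exact Nat.le_of_dvd (by norm_num) h2

theorem hη3 : η ^ 3 = η + 1 := by
  linear_combination (η - θ') * hη + hθ'

theorem η_integral : IsIntegral ℤ η := by
  refine ⟨X ^ 3 - X - 1, by monicity!, ?_⟩
  simp
  linear_combination hη3

theorem θ'_integral : IsIntegral ℤ θ' := by
  refine ⟨X ^ 3 - X - 1, by monicity!, ?_⟩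
  simp only [eval₂_sub, eval₂_pow, eval₂_X, eval₂_one]
  linear_combination hθ'

/-- `η` as an algebraic integer. -/
def ηi : 𝓞 K := ⟨η, η_integral⟩

/-- `θ'` as an algebraic integer. -/
def θi' : 𝓞 K := ⟨θ', θ'_integral⟩

theorem adjoin_η : Algebra.adjoin K₁ {algebraMap (𝓞 K) K ηi} = ⊤ :=
  AdjoinRoot.adjoinRoot_eq_top

theorem deriv_g : derivative g = 2 * X + C θ := by
  unfold g
  rw [derivative_add, derivative_add, derivative_C, derivative_C_mul, derivative_X,
    derivative_X_sq, add_zero, mul_one]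
  rfl

theorem norm_lift (y : K₁) : Algebra.norm ℚ (algebraMap K₁ K y) = (Algebra.norm ℚ y) ^ 2 := by
  rw [← Algebra.norm_norm (S := K₁), Algebra.norm_algebraMap, finrank_K_K₁, map_pow]

theorem deriv_η : algebraMap (𝓞 K) K (aeval ηi (derivative (minpoly (𝓞 K₁) ηi)))
    = 2 * η + θ' := by
  have hint : IsIntegral (𝓞 K₁) ηi := (Algebra.IsIntegral.isIntegral ηi)
  have h : minpoly K₁ (algebraMap (𝓞 K) K ηi) = (minpoly (𝓞 K₁) ηi).map (algebraMap (𝓞 K₁) K₁) :=
    minpoly.isIntegrallyClosed_eq_field_fractions K₁ K hint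
  have h2 : minpoly K₁ (algebraMap (𝓞 K) K ηi) = g := by
    have := AdjoinRoot.minpoly_root g_irred.ne_zero
    rw [g_monic.leadingCoeff, inv_one, C_1, mul_one] at this
    exact this
  calc algebraMap (𝓞 K) K (aeval ηi (derivative (minpoly (𝓞 K₁) ηi)))
      = aeval η (derivative (minpoly K₁ (algebraMap (𝓞 K) K ηi))) := by
        rw [h, derivative_map, aeval_map_algebraMap, ← aeval_algebraMap_apply]
        rfl
    _ = aeval η (derivative g) := by rw [h2]
    _ = 2 * η + θ' := by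
        rw [deriv_g, map_add, map_mul, aeval_X, aeval_C, map_ofNat]

theorem norm_deriv_η : |Algebra.norm ℚ (2 * η + θ' : K)| = 23 := by
  have h1 : (2 * η + θ') ^ 2 = algebraMap K₁ K (4 - 3 * θ ^ 2) := by
    rw [map_sub, map_mul, map_pow, map_ofNat, map_ofNat]
    linear_combination 4 * hη
  have h2 := congrArg (Algebra.norm ℚ) h1
  rw [map_pow, norm_lift, norm_disc, ← sq_abs, ← sq_abs (-23)] at h2
  have h3 := (sq_eq_sq₀ (abs_nonneg _) (abs_nonneg _)).1 h2
  rw [h3]; norm_num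

theorem discr_K : (discr K).natAbs ≤ 12167 := by
  have h := aeval_derivative_mem_differentIdeal (𝓞 K₁) K₁ K ηi adjoin_η
  have h1 : differentIdeal (𝓞 K₁) (𝓞 K) ∣
      Ideal.span {aeval ηi (derivative (minpoly (𝓞 K₁) ηi))} :=
    Ideal.dvd_span_singleton.2 h
  have h2 := map_dvd Ideal.absNorm h1
  rw [absNorm_span K _ 23 (Algebra.norm ℚ (2 * η + θ' : K)) (by rw [deriv_η])
    (by rw [norm_deriv_η]; norm_num)] at h2
  have h3 := Nat.le_of_dvd (by norm_num) h2
  rw [natAbs_discr_eq_absNorm_differentIdeal_mul_natAbs_discr_pow K₁ (𝓞 K₁) K (𝓞 K),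
    finrank_K_K₁]
  calc _ ≤ 23 * 23 ^ 2 := Nat.mul_le_mul h3 (Nat.pow_le_pow_left discr_K₁ 2)
    _ = 12167 := by norm_num

end

end Pool.Agent.H12.HCF
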