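import Pool.Agent.H12.Field2

open Polynomial NumberField Module

namespace Pool.Agent.H12.HCF

noncomputable section

/-- No prime ideal of `𝓞 K` has norm `q` when `X^3 - X - 1` has no root modulo `q`. -/
theorem no_prime_of_norm (q : ℕ) (hq : q.Prime) (hroot : ∀ a : ZMod q, a ^ 3 - a - 1 ≠ 0)
    (I : Ideal (𝓞 K)) (hI : Ideal.absNorm I = q) : False := by
  have hcard : Nat.card (𝓞 K ⧸ I) = q := hI
  have hfin : Finite (𝓞 K ⧸ I) := Nat.finite_of_card_ne_zero (by rw [hcard]; exact hq.ne_zero)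
  have := Fintype.ofFinite (𝓞 K ⧸ I)
  rw [Nat.card_eq_fintype_card] at hcard
  let e := (ZMod.ringEquivOfPrime (𝓞 K ⧸ I) hq hcard).symm
  apply hroot (e (Ideal.Quotient.mk I θi'))
  have h : θi' ^ 3 - θi' - 1 = 0 := by
    apply RingOfIntegers.ext
    have := hθ'
    simp [θi']
    linear_combination hθ'
  have h2 := congrArg (fun x => e (Ideal.Quotient.mk I x)) h
  simpa using h2

theorem minkowski_lt : (4 / Real.pi) ^ InfinitePlace.nrComplexPlaces K *
    ((finrank ℚ K).factorial / (finrank ℚ K) ^ (finrank ℚ K) * √|discr K|) < 4 := by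
  rw [nrComplexPlaces_K, finrank_K]
  have h1 : √|(discr K : ℝ)| ≤ 110.4 := by
    apply Real.sqrt_le_iff.2
    refine ⟨by norm_num, ?_⟩
    have h2 : ((discr K).natAbs : ℝ) ≤ 12167 := by exact_mod_cast discr_K
    rw [Nat.cast_natAbs, Int.cast_abs] at h2
    linarith
  have h3 : (4 / Real.pi) ^ 3 ≤ 2.1 := by
    have hpi := Real.pi_gt_d2
    calc (4 / Real.pi) ^ 3 ≤ (4 / 3.14) ^ 3 := by
          gcongr
      _ ≤ 2.1 := by norm_num
  have h4 : ((Nat.factorial 6 : ℕ) : ℝ) / ((6 : ℕ) : ℝ) ^ 6 = 5 / 324 := by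
    norm_num [Nat.factorial]
  calc (4 / Real.pi) ^ 3 * (((Nat.factorial 6 : ℕ) : ℝ) / ((6 : ℕ) : ℝ) ^ 6 * √|(discr K : ℝ)|)
      = (4 / Real.pi) ^ 3 * (5 / 324 * √|(discr K : ℝ)|) := by rw [h4]
    _ ≤ 2.1 * (5 / 324 * 110.4) := by
        gcongr
    _ < 4 := by norm_num

theorem pid : IsPrincipalIdealRing (𝓞 K) := by
  apply RingOfIntegers.isPrincipalIdealRing_of_isPrincipal_of_norm_le_of_isPrime
  intro I hprime hnorm
  exfalso
  have h4 : ((Ideal.absNorm (I : Ideal (𝓞 K)) : ℕ) : ℝ) < 4 := lt_of_le_of_lt hnorm minkowski_lt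
  have h4' : Ideal.absNorm (I : Ideal (𝓞 K)) < 4 := by exact_mod_cast h4
  have h0 : Ideal.absNorm (I : Ideal (𝓞 K)) ≠ 0 :=
    Ideal.absNorm_ne_zero_of_nonZeroDivisors I
  have h1 : Ideal.absNorm (I : Ideal (𝓞 K)) ≠ 1 := by
    rw [Ne, Ideal.absNorm_eq_one_iff]
    exact hprime.ne_top
  have h23 : Ideal.absNorm (I : Ideal (𝓞 K)) = 2 ∨ Ideal.absNorm (I : Ideal (𝓞 K)) = 3 := by
    omega
  rcases h23 with h | h
  · exact no_prime_of_norm 2 Nat.prime_two (by decide) _ h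
  · exact no_prime_of_norm 3 Nat.prime_three (by decide) _ h

end

end Pool.Agent.H12.HCF
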