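import Pool.Agent.H12.Field3

open Polynomial NumberField Module

namespace Pool.Agent.H12.HCF

noncomputable section

theorem no_root_two : ∀ a : ZMod 2, a ^ 3 - a - 1 ≠ 0 := by decide

variable {p : ℕ} [hp : Fact p.Prime]

theorem hensel (F : ℤ_[p][X]) (a : ℤ_[p]) (h1 : ‖F.eval a‖ < 1) (h2 : ‖F.derivative.eval a‖ = 1) :
    ∃ z : ℤ_[p], F.eval z = 0 ∧ ‖z - a‖ < 1 := by
  obtain ⟨z, hz, hz2, -⟩ := hensels_lemma (F := F) (a := a) (by
    rw [coe_aeval_eq_eval, h2]; simpa using h1)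
  rw [coe_aeval_eq_eval] at hz hz2
  exact ⟨z, hz, by rwa [h2] at hz2⟩

theorem deriv_quad (z : ℤ_[p]) :
    derivative (X ^ 2 + C z * X + C (z ^ 2 - 1) : ℤ_[p][X]) = C 2 * X + C z := by
  rw [derivative_add, derivative_add, derivative_C, derivative_C_mul, derivative_X,
    derivative_X_sq, add_zero, mul_one]

theorem norm_eq_one_of_not_dvd {n : ℤ} (h : ¬ (p : ℤ) ∣ n) : ‖(n : ℤ_[p])‖ = 1 := by
  have h1 : ¬ ‖(n : ℤ_[p])‖ < 1 := by
    rw [PadicInt.norm_int_lt_one_iff_dvd]; exact h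
  exact le_antisymm (PadicInt.norm_le_one _) (not_lt.1 h1)

theorem exists_roots (h23 : p ≠ 23) (r s : ℤ) (hr : (p : ℤ) ∣ r ^ 3 - r - 1)
    (hs : (p : ℤ) ∣ s ^ 2 + 23) :
    ∃ z w : ℤ_[p], z ^ 3 - z - 1 = 0 ∧ w ^ 2 + z * w + (z ^ 2 - 1) = 0 := by
  have hpr := hp.out
  have hl : Prime (p : ℤ) := Nat.prime_iff_prime_int.1 hpr
  have h23' : ¬ (p : ℤ) ∣ 23 := by
    intro h
    have h' : p ∣ 23 := by exact_mod_cast h
    exact h23 ((Nat.prime_dvd_prime_iff_eq hpr (by norm_num)).1 h')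
  have hp2 : ¬ (p : ℤ) ∣ 2 := by
    intro h
    have h' : p ∣ 2 := by exact_mod_cast h
    have h2 : p = 2 := (Nat.prime_dvd_prime_iff_eq hpr Nat.prime_two).1 h'
    subst h2
    apply no_root_two r
    have := (ZMod.intCast_zmod_eq_zero_iff_dvd (r ^ 3 - r - 1) 2).2 hr
    push_cast at this
    exact this
  have hd : ¬ (p : ℤ) ∣ 3 * r ^ 2 - 1 := by
    intro h
    apply h23'
    have e : (23 : ℤ) = (4 - 3 * (2 * r - 3) * r) * (3 * r ^ 2 - 1)
        + (9 * (2 * r - 3)) * (r ^ 3 - r - 1) := by ring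
    rw [e]
    exact dvd_add (h.mul_left _) (hr.mul_left _)
  obtain ⟨z, hz, hzr⟩ := hensel (X ^ 3 - X - 1 : ℤ_[p][X]) (r : ℤ_[p])
    (by
      have : eval (r : ℤ_[p]) (X ^ 3 - X - 1) = ((r ^ 3 - r - 1 : ℤ) : ℤ_[p]) := by simp
      rw [this, PadicInt.norm_int_lt_one_iff_dvd]
      exact hr)
    (by
      have : eval (r : ℤ_[p]) (derivative (X ^ 3 - X - 1)) = ((3 * r ^ 2 - 1 : ℤ) : ℤ_[p]) := by
        simp
        left; norm_num
      rw [this]
      exact norm_eq_one_of_not_dvd hd)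
  have hz' : z ^ 3 - z - 1 = 0 := by simpa using hz
  -- `3 z^2 - 1` is a unit
  have hunit : IsUnit (3 * z ^ 2 - 1) := by
    have e : (4 - 3 * (2 * z - 3) * z) * (3 * z ^ 2 - 1) = 23 := by
      linear_combination (-9 * (2 * z - 3)) * hz'
    have h23u : IsUnit (23 : ℤ_[p]) := by
      rw [PadicInt.isUnit_iff]
      have := norm_eq_one_of_not_dvd h23'
      simpa using this
    rw [← e] at h23u
    exact isUnit_of_mul_isUnit_right h23u
  obtain ⟨u, hu⟩ := hunit.exists_right_inv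
  have h2u : IsUnit (2 : ℤ_[p]) := by
    rw [PadicInt.isUnit_iff]
    have := norm_eq_one_of_not_dvd hp2
    simpa using this
  obtain ⟨k, hk⟩ := h2u.exists_right_inv
  have hdisc : (4 - 3 * z ^ 2) * (3 * z ^ 2 - 1) ^ 2 = -23 := by
    linear_combination (-27 * (z ^ 3 - z + 1)) * hz'
  obtain ⟨w, hw, -⟩ := hensel (X ^ 2 + C z * X + C (z ^ 2 - 1) : ℤ_[p][X])
    ((-z + (s : ℤ_[p]) * u) * k)
    (by
      have e : eval ((-z + (s : ℤ_[p]) * u) * k) (X ^ 2 + C z * X + C (z ^ 2 - 1))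
          = k ^ 2 * u ^ 2 * ((s ^ 2 + 23 : ℤ) : ℤ_[p]) := by
        simp
        linear_combination (-z * (-z + (s : ℤ_[p]) * u) * k) * hk
          + (-(z ^ 2 - 1) * (2 * k + 1)) * hk
          + k ^ 2 * (4 - 3 * z ^ 2) * ((3 * z ^ 2 - 1) * u + 1) * hu - k ^ 2 * u ^ 2 * hdisc
      rw [e]
      have h1 : ‖((s ^ 2 + 23 : ℤ) : ℤ_[p])‖ < 1 := by
        rw [PadicInt.norm_int_lt_one_iff_dvd]
        exact hs
      rw [norm_mul]
      calc _ ≤ 1 * ‖((s ^ 2 + 23 : ℤ) : ℤ_[p])‖ := by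
            gcongr; exact PadicInt.norm_le_one _
        _ < 1 := by rw [one_mul]; exact h1)
    (by
      have e : eval ((-z + (s : ℤ_[p]) * u) * k) (derivative (X ^ 2 + C z * X + C (z ^ 2 - 1)))
          = (s : ℤ_[p]) * u := by
        rw [deriv_quad, eval_add, eval_mul, eval_C, eval_C, eval_X]
        linear_combination (-z + (s : ℤ_[p]) * u) * hk
      rw [e, norm_mul]
      have hs' : ¬ (p : ℤ) ∣ s := by
        intro h
        apply h23'
        have e : (23 : ℤ) = (s ^ 2 + 23) - s * s := by ring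
        rw [e]
        exact dvd_sub hs (h.mul_left _)
      have hu' : IsUnit u := IsUnit.of_mul_eq_one _ (by rw [mul_comm]; exact hu)
      rw [norm_eq_one_of_not_dvd hs', PadicInt.isUnit_iff.1 hu', mul_one])
  exact ⟨z, w, hz', by simpa using hw⟩

/-- The `p`-adic embedding of `K`. -/
theorem exists_embedding (z w : ℤ_[p]) (hz : z ^ 3 - z - 1 = 0)
    (hw : w ^ 2 + z * w + (z ^ 2 - 1) = 0) : Nonempty (K →+* ℚ_[p]) := by
  have hz' : (z : ℚ_[p]) ^ 3 - z - 1 = 0 := by exact_mod_cast congrArg (fun x : ℤ_[p] => (x : ℚ_[p])) hz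
  have hw' : (w : ℚ_[p]) ^ 2 + z * w + ((z : ℚ_[p]) ^ 2 - 1) = 0 := by
    exact_mod_cast congrArg (fun x : ℤ_[p] => (x : ℚ_[p])) hw
  let φ₁ : K₁ →+* ℚ_[p] := AdjoinRoot.lift (algebraMap ℚ ℚ_[p]) (z : ℚ_[p]) (by
    unfold f
    rw [eval₂_sub, eval₂_sub, eval₂_pow, eval₂_X, eval₂_one]
    exact hz')
  have hφ₁ : φ₁ θ = z := AdjoinRoot.lift_root _
  exact ⟨AdjoinRoot.lift φ₁ (w : ℚ_[p]) (by
    unfold g
    rw [eval₂_add, eval₂_add, eval₂_mul, eval₂_pow, eval₂_X, eval₂_C, eval₂_C, map_sub, map_one,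
      map_pow, hφ₁]
    exact hw')⟩

theorem integral_norm_le (y : ℚ_[p]) (hy : IsIntegral ℤ y) : ‖y‖ ≤ 1 := by
  have h1 : IsIntegral ℤ_[p] y := hy.tower_top
  obtain ⟨z, rfl⟩ := IsIntegrallyClosed.isIntegral_iff.1 h1
  exact PadicInt.norm_le_one z

theorem exists_hom (φ : K →+* ℚ_[p]) : Nonempty (𝓞 K →+* ZMod p) := by
  let ψ : 𝓞 K →+* ℤ_[p] := RingHom.codRestrict (φ.comp (algebraMap (𝓞 K) K)) (PadicInt.subring p)
    (fun x => integral_norm_le _ (map_isIntegral_int φ (RingOfIntegers.isIntegral_coe x)))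
  exact ⟨PadicInt.toZMod.comp ψ⟩

theorem exists_ideal (ψ : 𝓞 K →+* ZMod p) : ∃ I : Ideal (𝓞 K), Ideal.absNorm I = p := by
  refine ⟨RingHom.ker ψ, ?_⟩
  have e := RingHom.quotientKerEquivOfSurjective (f := ψ) (ZMod.ringHom_surjective ψ)
  change Nat.card (𝓞 K ⧸ RingHom.ker ψ) = p
  rw [Nat.card_congr e.toEquiv, Nat.card_zmod]

omit hp in
theorem exists_elt (I : Ideal (𝓞 K)) (hI : Ideal.absNorm I = p) :
    ∃ x : 𝓞 K, |Algebra.norm ℚ (x : K)| = p := by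
  have := pid
  obtain ⟨x, hx⟩ := (IsPrincipalIdealRing.principal I).principal
  refine ⟨x, ?_⟩
  rw [hx, Ideal.submodule_span_eq, Ideal.absNorm_span_singleton] at hI
  rw [← Algebra.coe_norm_int]
  have : (((Algebra.norm ℤ x).natAbs : ℕ) : ℚ) = p := by exact_mod_cast hI
  rw [← this]
  simp

end

end Pool.Agent.H12.HCF
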