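import Pool.Agent.H12.Field4
import Pool.Agent.H12.CubicDescent

open Polynomial NumberField Module

namespace Pool.Agent.H12.HCF

noncomputable section

/-- `X^2 + 23`. -/
def q : ℚ[X] := X ^ 2 + C 23

theorem q_monic : q.Monic := by
  unfold q; monicity!

theorem q_natDegree : q.natDegree = 2 := by
  unfold q; compute_degree!

theorem q_irred : Irreducible q := by
  apply Polynomial.irreducible_of_degree_le_three_of_not_isRoot
  · rw [q_natDegree]; decide
  · intro x hx
    have h : x ^ 2 + 23 = 0 := by simpa [q] using hx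
    nlinarith [sq_nonneg x]

instance : Fact (Irreducible q) := ⟨q_irred⟩

/-- The quadratic field `ℚ(√-23)`. -/
abbrev k := AdjoinRoot q

abbrev ε : k := AdjoinRoot.root q

theorem hε : ε ^ 2 = -23 := by
  have h : eval₂ (AdjoinRoot.of q) (AdjoinRoot.root q) (X ^ 2 + C 23) = 0 :=
    AdjoinRoot.eval₂_root q
  rw [eval₂_add, eval₂_pow, eval₂_X, eval₂_C, map_ofNat] at h
  linear_combination h

def pbk : PowerBasis ℚ k := AdjoinRoot.powerBasis q_irred.ne_zero

instance : FiniteDimensional ℚ k := pbk.finite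

instance : NumberField k where

theorem pbk_dim : pbk.dim = 2 := by
  unfold pbk
  rw [AdjoinRoot.powerBasis_dim, q_natDegree]

/-- The basis `1, ε`. -/
def bk : Module.Basis (Fin 2) ℚ k := pbk.basis.reindex (finCongr pbk_dim)

theorem bk_apply (i : Fin 2) : bk i = ε ^ (i : ℕ) := by
  simp [bk, pbk]

theorem bk_0 : bk 0 = 1 := by simp [bk_apply]
theorem bk_1 : bk 1 = ε := by simp [bk_apply]

theorem leftMul_k (a b : ℚ) : Algebra.leftMulMatrix bk ((a : k) + (b : k) * ε)
      = !![a, -23 * b; b, a] := by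
  apply leftMulMatrix_eq_of
  intro j
  fin_cases j
  · simp [Fin.sum_univ_two, bk_0, bk_1, Algebra.smul_def]
  · simp [Fin.sum_univ_two, bk_0, bk_1, Algebra.smul_def]
    linear_combination (b : k) * hε

theorem norm_k (a b : ℚ) : Algebra.norm ℚ ((a : k) + (b : k) * ε) = a ^ 2 + 23 * b ^ 2 := by
  rw [Algebra.norm_eq_matrix_det bk, leftMul_k, Matrix.det_fin_two]
  simp
  ring

theorem trace_k (a b : ℚ) : Algebra.trace ℚ k ((a : k) + (b : k) * ε) = 2 * a := by
  rw [Algebra.trace_eq_matrix_trace bk, leftMul_k, Matrix.trace_fin_two]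
  simp
  ring

theorem exists_coords (x : k) : ∃ a b : ℚ, x = (a : k) + (b : k) * ε := by
  refine ⟨bk.repr x 0, bk.repr x 1, ?_⟩
  have h := bk.sum_repr x
  rw [Fin.sum_univ_two, bk_0, bk_1] at h
  conv_lhs => rw [← h]
  simp [Algebra.smul_def]

/-- The embedding `ℚ(√-23) → K`. -/
def ι : k →+* K := AdjoinRoot.lift (algebraMap ℚ K) δ (by
  unfold q
  rw [eval₂_add, eval₂_pow, eval₂_X, eval₂_C, map_ofNat, hδ]
  norm_num)

instance algkK : Algebra k K := ι.toAlgebra

instance : IsScalarTower ℚ k K := IsScalarTower.of_algebraMap_eq (fun x => by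
  rw [eq_ratCast, eq_ratCast, map_ratCast])

/-- An integral element of `ℚ(√-23)` has norm represented by the principal form. -/
theorem norm_rep (x : k) (hx : IsIntegral ℤ x) :
    ∃ u v : ℤ, Algebra.norm ℚ x = ((u ^ 2 + u * v + 6 * v ^ 2 : ℤ) : ℚ) := by
  obtain ⟨a, b, rfl⟩ := exists_coords x
  have ht : IsIntegral ℤ (Algebra.trace ℚ k ((a : k) + (b : k) * ε)) := Algebra.isIntegral_trace hx
  have hn : IsIntegral ℤ (Algebra.norm ℚ ((a : k) + (b : k) * ε)) := Algebra.isIntegral_norm ℚ hx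
  rw [trace_k] at ht
  rw [norm_k] at hn ⊢
  obtain ⟨t, ht⟩ := IsIntegrallyClosed.isIntegral_iff.1 ht
  obtain ⟨n, hn⟩ := IsIntegrallyClosed.isIntegral_iff.1 hn
  have ht' : (t : ℚ) = 2 * a := by simpa using ht
  have hn' : (n : ℚ) = a ^ 2 + 23 * b ^ 2 := by simpa using hn
  -- `23 * (2 b)` is an integer
  have h1 : IsIntegral ℤ (23 * (2 * b)) := by
    have h2 : (23 * (2 * b)) ^ 2 = ((23 * (4 * n - t ^ 2) : ℤ) : ℚ) := by
      push_cast
      rw [ht', hn']
      ring
    have h3 : IsIntegral ℤ ((23 * (2 * b)) ^ 2) := by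
      rw [h2]
      exact isIntegral_algebraMap
    exact h3.of_pow (by norm_num)
  obtain ⟨m, hm⟩ := IsIntegrallyClosed.isIntegral_iff.1 h1
  have hm' : (m : ℚ) = 23 * (2 * b) := by simpa using hm
  have h4 : m ^ 2 = 23 * (4 * n - t ^ 2) := by
    have : ((m ^ 2 : ℤ) : ℚ) = ((23 * (4 * n - t ^ 2) : ℤ) : ℚ) := by
      push_cast
      rw [hm', ht', hn']
      ring
    exact_mod_cast this
  have h5 : (23 : ℤ) ∣ m := by
    have : Prime (23 : ℤ) := by
      have := Nat.prime_iff_prime_int.1 (by norm_num : Nat.Prime 23)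
      exact_mod_cast this
    exact this.dvd_of_dvd_pow ⟨_, h4⟩
  obtain ⟨c, rfl⟩ := h5
  have hc : (c : ℚ) = 2 * b := by
    push_cast at hm'
    linarith
  have h6 : t ^ 2 + 23 * c ^ 2 = 4 * n := by
    have : (23 : ℤ) * (t ^ 2 + 23 * c ^ 2) = 23 * (4 * n) := by linear_combination h4
    exact mul_left_cancel₀ (by norm_num) this
  have h7 : (2 : ℤ) ∣ t - c := by
    have h8 : Even (t ^ 2 + 23 * c ^ 2) := ⟨2 * n, by linear_combination h6⟩
    have h9 : Even (t - c) := by
      rw [Int.even_sub]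
      rw [Int.even_add] at h8
      have e1 : Even (t ^ 2) ↔ Even t := Int.even_pow' (by norm_num)
      have e2 : Even (23 * c ^ 2) ↔ Even c := by
        rw [Int.even_mul, Int.even_pow' (by norm_num)]
        constructor
        · rintro (h | h)
          · exact absurd h (by decide)
          · exact h
        · exact Or.inr
      rw [e1, e2] at h8
      exact h8
    exact h9.two_dvd
  obtain ⟨u, hu⟩ := h7
  refine ⟨u, c, ?_⟩
  rw [← hn']
  have : n = u ^ 2 + u * c + 6 * c ^ 2 := by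
    have ht2 : t = 2 * u + c := by linarith
    rw [ht2] at h6
    have : 4 * n = 4 * (u ^ 2 + u * c + 6 * c ^ 2) := by linear_combination -h6
    exact mul_left_cancel₀ (by norm_num) this
  rw [this]

theorem rec_principal : Cubic.RecStatement := by
  intro p hp h23 r s hr hs
  have : Fact p.Prime := ⟨hp⟩
  obtain ⟨z, w, hz, hw⟩ := exists_roots h23 r s hr hs
  obtain ⟨φ⟩ := exists_embedding z w hz hw
  obtain ⟨ψ⟩ := exists_hom φ
  obtain ⟨I, hI⟩ := exists_ideal ψ
  obtain ⟨x, hx⟩ := exists_elt I hI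
  have hint : IsIntegral ℤ (Algebra.norm k (x : K)) :=
    Algebra.isIntegral_norm k (RingOfIntegers.isIntegral_coe x)
  obtain ⟨u, v, huv⟩ := norm_rep _ hint
  rw [Algebra.norm_norm] at huv
  refine ⟨u, v, ?_⟩
  rw [huv] at hx
  have hnn : 0 ≤ u ^ 2 + u * v + 6 * v ^ 2 := by
    nlinarith [sq_nonneg (2 * u + v), sq_nonneg v]
  have hx' : |u ^ 2 + u * v + 6 * v ^ 2| = (p : ℤ) := by
    have : ((|u ^ 2 + u * v + 6 * v ^ 2| : ℤ) : ℚ) = ((p : ℤ) : ℚ) := by
      rw [Int.cast_abs, hx]; simp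
    exact_mod_cast this
  rwa [abs_of_nonneg hnn] at hx'

end

end Pool.Agent.H12.HCF
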